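import Pool.Agent.H770.GS.TK
import Pool.Agent.H675.TF12

set_option autoImplicit false

open MeasureTheory Set intervalIntegral Filter Topology

namespace Pool.Agent.H308.TK5

open Pool.Agent.H770.GS

theorem exp_half : Real.exp (-(1 / 2)) ≤ 0.6076 := by
  have h1 : Real.exp (-(1 / 2)) * Real.exp (-(1 / 2)) = Real.exp (-1) := by
    rw [← Real.exp_add]; norm_num
  have h2 := Real.exp_neg_one_lt_d9
  have h3 := Real.exp_pos (-(1 / 2))
  nlinarith

theorem cases_eps (ε z E : ℝ) (h1 : 1 / 2 ≤ ε) (h2 : ε ≤ 9 / 8) (hE : E = Real.exp (-ε))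
    (hz : 1 - ε / 3 + ε ^ 2 / 10 - ε ^ 3 / 42 ≤ z) :
    (0.7428 ≤ z ∧ ε ≤ 1 ∧ E ≤ 0.6076) ∨ (0.7176 ≤ z ∧ ε ≤ 9 / 8 ∧ E ≤ 0.368) := by
  rcases le_total ε 1 with h | h
  · left
    refine ⟨?_, h, ?_⟩
    · have hd : 0 ≤ 1 - ε := by linarith
      have e : 1 - ε / 3 + ε ^ 2 / 10 - ε ^ 3 / 42 = 26 / 35 + (1 - ε) * (43 / 210) +
          (1 - ε) ^ 2 * (1 / 35) + (1 - ε) ^ 3 / 42 := by ring
      have p2 : 0 ≤ (1 - ε) ^ 2 := by positivity
      have p3 : 0 ≤ (1 - ε) ^ 3 := by positivity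
      rw [e] at hz
      linarith
    · rw [hE]
      exact (Real.exp_le_exp.2 (by linarith)).trans exp_half
  · right
    refine ⟨?_, h2, ?_⟩
    · have hd : 0 ≤ 9 / 8 - ε := by linarith
      have e : 1 - ε / 3 + ε ^ 2 / 10 - ε ^ 3 / 42 =
          (1 - (9 / 8) / 3 + (9 / 8) ^ 2 / 10 - (9 / 8) ^ 3 / 42) +
          (9 / 8 - ε) * (1 / 3 - (9 / 8) / 5 + (9 / 8) ^ 2 / 14) +
          (9 / 8 - ε) ^ 2 * (1 / 10 - (9 / 8) / 14) + (9 / 8 - ε) ^ 3 / 42 := by ring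
      have p2 : 0 ≤ (9 / 8 - ε) ^ 2 := by positivity
      have p3 : 0 ≤ (9 / 8 - ε) ^ 3 := by positivity
      rw [e] at hz
      norm_num at hz ⊢
      linarith
    · rw [hE]
      have h3 := Real.exp_neg_one_lt_d9
      have h4 : Real.exp (-ε) ≤ Real.exp (-1) := Real.exp_le_exp.2 (by linarith)
      linarith

theorem sinc24 : Real.sinc (12 / 5) ≤ 0.2816 := by
  have h := Pool.Agent.H675.TF12.s5 (12 / 5) (by norm_num)
  rw [Real.sinc_of_ne_zero (by norm_num), div_le_iff₀ (by norm_num)]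
  norm_num at h ⊢
  linarith

theorem lb_pi (ρ : ℝ) (h0 : 0 ≤ ρ) (h1 : ρ ≤ 1) :
    ρ * 0.6366 + (1 - ρ) * 0.774 ≤ lb ρ (Real.pi / 2) := by
  have hp : 0 < Real.pi := Real.pi_pos
  have hp1 := Real.pi_lt_d6
  unfold lb
  rw [Real.sinc_of_ne_zero (by positivity), Real.sin_pi_div_two, Real.cos_pi_div_two]
  have a1 : (0.6366 : ℝ) ≤ 1 / (Real.pi / 2) := by
    rw [le_div_iff₀ (by positivity)]
    linarith
  have a2 : (0.774 : ℝ) ≤ 3 * (1 - Real.pi / 2 * 0) / (Real.pi / 2) ^ 3 := by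
    rw [le_div_iff₀ (by positivity)]
    have : (Real.pi / 2) ^ 3 ≤ (3.141593 / 2) ^ 3 :=
      pow_le_pow_left₀ (by positivity) (by linarith) 3
    norm_num at this ⊢
    linarith
  have b1 := mul_le_mul_of_nonneg_left a1 h0
  have b2 := mul_le_mul_of_nonneg_left a2 (show 0 ≤ 1 - ρ by linarith)
  linarith

theorem lb_182 (ρ : ℝ) (h0 : 0 ≤ ρ) (h1 : ρ ≤ 1) :
    ρ * 0.532 + (1 - ρ) * 0.705 ≤ lb ρ (91 / 50) := by
  have hs := Pool.Agent.H675.TF12.s4 (91 / 50) (by norm_num)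
  have hc := Pool.Agent.H675.TF12.c5 (91 / 50) (by norm_num)
  unfold lb
  rw [Real.sinc_of_ne_zero (by norm_num)]
  have a1 : (0.532 : ℝ) ≤ Real.sin (91 / 50) / (91 / 50) := by
    rw [le_div_iff₀ (by norm_num)]
    norm_num at hs ⊢
    linarith
  have a2 : (0.705 : ℝ) ≤ 3 * (Real.sin (91 / 50) - 91 / 50 * Real.cos (91 / 50)) /
      (91 / 50) ^ 3 := by
    rw [le_div_iff₀ (by norm_num)]
    norm_num at hs hc ⊢
    linarith
  have b1 := mul_le_mul_of_nonneg_left a1 h0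
  have b2 := mul_le_mul_of_nonneg_left a2 (show 0 ≤ 1 - ρ by linarith)
  linarith

theorem tk5 : S_TK5 := by
  intro h2 h6 h12 h1 h4 ε x hε1 hε2 hx
  have hε : 0 < ε := by linarith
  obtain ⟨hz0, -, hinv, -, -, -, -⟩ := h2 ε hε
  obtain ⟨hsinc, -, hanti, -, -, -, -, -⟩ := h6 h2 ε hε
  obtain ⟨hρ0, hρ1, hlb⟩ := h1 h2 ε hε
  have hzl := (h4 ε hε1 hε2).1
  have hpi := Real.pi_gt_d6
  have hpi' := Real.pi_lt_d6
  obtain ⟨E, hE⟩ : ∃ E, E = Real.exp (-ε) := ⟨_, rfl⟩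
  have hE0 : 0 < E := by rw [hE]; exact Real.exp_pos _
  obtain ⟨r, hr⟩ : ∃ r, r = (zt ε)⁻¹ := ⟨_, rfl⟩
  have hr0 : 0 < r := by rw [hr]; positivity
  have hrz : r * zt ε = 1 := by rw [hr]; exact inv_mul_cancel₀ hz0.ne'
  have hρ : rh ε = r * E := by rw [rh, hE, hr, div_eq_mul_inv, mul_comm]
  have hA := lb_pi (rh ε) hρ0.le hρ1.le
  have hB := lb_182 (rh ε) hρ0.le hρ1.le
  have hA' := hA.trans (hlb (Real.pi / 2) (by positivity) (by linarith))
  have hB' := hB.trans (hlb (91 / 50) (by norm_num) (by linarith))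
  have hs3 : Real.pi / Real.sqrt 3 ≤ 91 / 50 := by
    have q1 : (1.732 : ℝ) ≤ Real.sqrt 3 := by
      apply Real.le_sqrt_of_sq_le; norm_num
    rw [div_le_iff₀ (by positivity)]
    nlinarith
  have hs3' : 0 ≤ Real.pi / Real.sqrt 3 := by positivity
  have hB'' : cf ε (91 / 50) ≤ cf ε (Real.pi / Real.sqrt 3) :=
    hanti ⟨hs3', by linarith⟩ ⟨by norm_num, by linarith⟩ hs3
  -- the linear inequalities
  have hK : 0 ≤ 0.32599 * zt ε - 0.1687 * ε - 0.107859 * E ∧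
      0 ≤ 0.60759 * zt ε - 0.107859 * E - 0.3184 ∧
      0 ≤ 0.4234 * zt ε - 0.1687 * ε - 0.173 * E ∧
      0 ≤ 0.705 * zt ε - 0.173 * E - 0.3184 := by
    rcases cases_eps ε (zt ε) E hε1 hε2 hE hzl with ⟨a, b, c⟩ | ⟨a, b, c⟩ <;>
      refine ⟨?_, ?_, ?_, ?_⟩ <;> norm_num at a c ⊢ <;> linarith
  obtain ⟨k1, k2, k3, k4⟩ := hK
  have m1 := mul_nonneg hr0.le k1
  have m2 := mul_nonneg hr0.le k2
  have m3 := mul_nonneg hr0.le k3
  have m4 := mul_nonneg hr0.le k4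
  have e1 : r * (0.32599 * zt ε - 0.1687 * ε - 0.107859 * E) =
      0.32599 - 0.1687 * (r * ε) - 0.107859 * (r * E) := by
    linear_combination 0.32599 * hrz
  have e2 : r * (0.60759 * zt ε - 0.107859 * E - 0.3184) =
      0.60759 - 0.107859 * (r * E) - 0.3184 * r := by
    linear_combination 0.60759 * hrz
  have e3 : r * (0.4234 * zt ε - 0.1687 * ε - 0.173 * E) =
      0.4234 - 0.1687 * (r * ε) - 0.173 * (r * E) := by
    linear_combination 0.4234 * hrz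
  have e4 : r * (0.705 * zt ε - 0.173 * E - 0.3184) =
      0.705 - 0.173 * (r * E) - 0.3184 * r := by
    linear_combination 0.705 * hrz
  rw [e1] at m1
  rw [e2] at m2
  rw [e3] at m3
  rw [e4] at m4
  rw [hρ] at hA' hB'
  have hre : 0 < r * ε := by positivity
  have hrE : 0 < r * E := by positivity
  -- upper bound for `|cf ε x|`
  have hU : |cf ε x| ≤ 0.2816 * (1 + 0.59904 * (r * ε)) ∨ |cf ε x| ≤ 0.3184 * r := by
    rcases le_total x Real.pi with hxp | hxp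
    · left
      have n0 : 0 ≤ cf ε x := by
        refine le_trans ?_ (hsinc x (by linarith) hxp)
        rw [Real.sinc_of_ne_zero (by linarith)]
        exact div_nonneg (Real.sin_nonneg_of_nonneg_of_le_pi (by linarith) hxp) (by linarith)
      have n1 : cf ε x ≤ cf ε (12 / 5) :=
        hanti ⟨by norm_num, by linarith⟩ ⟨by linarith, hxp⟩ hx
      have n2 := h12 h2 ε (12 / 5) hε (by norm_num) le_rfl
      have n3 : 1 + 2 * ε / zt ε * 0.052 * (12 / 5) ^ 2 = 1 + 0.59904 * (r * ε) := by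
        rw [hr, div_eq_mul_inv]; ring
      rw [n3] at n2
      rw [abs_of_nonneg n0]
      refine (n1.trans n2).trans ?_
      exact mul_le_mul_of_nonneg_right sinc24 (by positivity)
    · right
      have hx0 : 0 < x := by linarith
      refine (hinv x hx0).trans ?_
      have n4 : 1 / (zt ε * x) = r * (1 / x) := by
        rw [hr]; field_simp
      rw [n4]
      have n5 : 1 / x ≤ 0.3184 := by
        rw [div_le_iff₀ hx0]
        nlinarith
      nlinarith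
  constructor
  · rcases hU with hU | hU
    · linarith
    · linarith
  · rcases hU with hU | hU
    · linarith
    · linarith

end Pool.Agent.H308.TK5
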