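import Pool.Agent.H770.GS.UQ

set_option autoImplicit false

/-! `S_perm` of project UQ. -/

namespace Pool.Agent.H308.UQ

open Pool.Agent.H770.GS

theorem perm : Pool.Agent.H770.GS.S_perm := by
  intro r n L L' hr hp hM
  obtain ⟨h1, h2, h3, h4⟩ := hM
  have h1' : L'.length = n := by rw [← hp.length_eq]; exact h1
  have h2' : (L'.map fun x => x ^ 2).sum = 1 := by
    rw [← (hp.map _).sum_eq]
    exact h2
  have h3' : ∀ x ∈ L', 0 ≤ x := fun x hx => h3 x (hp.mem_iff.2 hx)
  have hA := dens_tendsto hr _ (vec_norm h1 h2)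
  have hB := dens_tendsto hr _ (vec_norm h1' h2')
  rw [ofFn_vec h1] at hA
  rw [ofFn_vec h1'] at hB
  have he : (fun τ : ℝ => dens r L (gs τ) 0) = fun τ : ℝ => dens r L' (gs τ) 0 := by
    funext τ
    rw [dens_perm (gs_cont τ) hp]
  rw [he] at hA
  have hAB := tendsto_nhds_unique hA hB
  refine ⟨h1', h2', h3', fun θ hθ => ?_⟩
  rw [← hAB]
  exact h4 θ hθ

end Pool.Agent.H308.UQ
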